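import Pool.Agent.P8H39.TI.Stm6
import Pool.Agent.P8H76.TI.Hb

/-!
# Package TI/PRJ (for helper39): orthogonal projection (the projection is as in `Pool.Agent.P8H76.TI.Hb`)
-/

set_option autoImplicit false

namespace Pool.Agent.P8H96.TI

open Finset Pool.Agent.P8H39.TI Pool.Agent.P8H76.TI

variable {n : ℕ}

/-- the part orthogonal to all `dn t g` -/
theorem exists_proj2 (k t : ℕ) (f : Finset (Fin n) → ℝ) :
    ∃ g h : Finset (Fin n) → ℝ, (∀ A ∈ slice n k, f A = dn t g A + h A) ∧
      ∀ g' : Finset (Fin n) → ℝ, ∑ A ∈ slice n k, dn t g' A * h A = 0 := by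
  classical
  let L : (Finset (Fin n) → ℝ) →ₗ[ℝ] EuclideanSpace ℝ (Finset (Fin n)) :=
    { toFun := fun g => WithLp.toLp 2 (fun A => if A ∈ slice n k then dn t g A else 0)
      map_add' := fun g g' => by
        ext A
        show (if A ∈ slice n k then dn t (fun X => g X + g' X) A else 0) =
          (if A ∈ slice n k then dn t g A else 0) + (if A ∈ slice n k then dn t g' A else 0)
        split_ifs
        · exact dn_add t g g' A
        · rw [add_zero]
      map_smul' := fun c g => by
        ext A
        show (if A ∈ slice n k then dn t (fun X => c * g X) A else 0) =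
          c * (if A ∈ slice n k then dn t g A else 0)
        split_ifs
        · exact dn_smul t c g A
        · rw [mul_zero] }
  obtain ⟨y, ⟨g, rfl⟩, z, hz, hfyz⟩ := (LinearMap.range L).exists_add_mem_mem_orthogonal
    (WithLp.toLp 2 (fun A => if A ∈ slice n k then f A else 0))
  refine ⟨g, fun A => z A, fun A hA => ?_, fun g' => ?_⟩
  · have h1 := congrArg (fun v : EuclideanSpace ℝ (Finset (Fin n)) => v A) hfyz
    have h2 : (if A ∈ slice n k then f A else 0) =
      (if A ∈ slice n k then dn t g A else 0) + z A := h1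
    rwa [if_pos hA, if_pos hA] at h2
  · have h1 := (Submodule.mem_orthogonal _ _).1 hz (L g') ⟨g', rfl⟩
    rw [PiLp.inner_apply] at h1
    have h2 : ∀ A : Finset (Fin n), inner ℝ ((L g') A) (z A) =
        if A ∈ slice n k then dn t g' A * z A else 0 := by
      intro A
      show inner ℝ (if A ∈ slice n k then dn t g' A else 0) (z A) = _
      split_ifs
      · simp [mul_comm]
      · rw [inner_zero_left]
    rw [sum_congr rfl fun A _ => h2 A, ← sum_filter, filter_mem_eq_inter, univ_inter] at h1
    exact h1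

/-- a function orthogonal to all `dn t g'` has no sums over the `k`-sets which contain a set of at most `t` elements -/
theorem up_zero {k t : ℕ} (htk : t ≤ k) {h : Finset (Fin n) → ℝ}
    (hh : ∀ g' : Finset (Fin n) → ℝ, ∑ A ∈ slice n k, dn t g' A * h A = 0) (Y : Finset (Fin n)) (hY : Y.card ≤ t) :
    up n k h Y = 0 := by
  classical
  have h1 := hh (fun Z => if Y ⊆ Z then 1 else 0)
  have h2 : ∀ A ∈ Pool.Agent.P8H39.TI.slice n k, dn t (fun Z => if Y ⊆ Z then (1 : ℝ) else 0) A * h A =
      if Y ⊆ A then ((k - Y.card).choose (t - Y.card) : ℝ) * h A else 0 := by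
    intro A hA
    have hAc := card_of_mem_slice hA
    rw [dn, ← sum_filter, sum_const, nsmul_eq_mul, mul_one]
    split_ifs with hYA
    · rw [card_filter_powersetCard_subset Y A t hYA (by omega), hAc]
    · have h3 : ((powersetCard t A).filter fun Z => Y ⊆ Z) = ∅ := by
        rw [filter_eq_empty_iff]
        intro Z hZ hYZ
        exact hYA (hYZ.trans (mem_powersetCard.1 hZ).1)
      rw [h3, card_empty, Nat.cast_zero, zero_mul]
  rw [sum_congr rfl h2, ← sum_filter, ← mul_sum] at h1
  have h3 : (((k - Y.card).choose (t - Y.card) : ℕ) : ℝ) ≠ 0 := by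
    rw [Nat.cast_ne_zero]
    exact (Nat.choose_pos (by omega)).ne'
  exact (mul_eq_zero.1 h1).resolve_left h3

theorem t_PRJ (hHB : S_HB) : S_PRJ := by
  intro n k t f x hk htk hx2 hx4 hx0
  classical
  obtain ⟨g, h, hf, hh⟩ := exists_proj2 k t f
  obtain ⟨x', -, hy2, -, hy4, -, hy6⟩ := hHB n k hk (dn t g)
  have hy0 : ∀ j, t < j → j ≤ k → x' j = 0 := hy6 t htk ⟨g, fun A _ => rfl⟩
  have hup : ∀ R : Finset (Fin n), R.card ≤ t → up n k f R = up n k (dn t g) R := by
    intro R hR
    have h1 : up n k f R = up n k (fun A => dn t g A + h A) R := up_congr hf R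
    have h2 := up_zero htk hh R hR
    rw [h1]
    unfold up at h2 ⊢
    rw [sum_add_distrib, h2, add_zero]
  have hxx : ∀ r, r ≤ t → x r = x' r := by
    intro r
    induction r using Nat.strong_induction_on with
    | _ r ih =>
      intro hr
      have h1 := hx4 r (hr.trans htk)
      have h2 := hy4 r (hr.trans htk)
      have h3 : ∑ R ∈ slice n r, up n k f R ^ 2 = ∑ R ∈ slice n r, up n k (dn t g) R ^ 2 := by
        refine sum_congr rfl fun R hR => ?_
        rw [hup R (by rw [card_of_mem_slice hR]; exact hr)]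
      rw [h1, h2, sum_range_succ, sum_range_succ] at h3
      have h4 : ∑ j ∈ range r, ((k - j).choose (r - j) : ℝ) * ((n - r - j).choose (k - r) : ℝ) * x j =
          ∑ j ∈ range r, ((k - j).choose (r - j) : ℝ) * ((n - r - j).choose (k - r) : ℝ) * x' j := by
        refine sum_congr rfl fun j hj => ?_
        have hj' := mem_range.1 hj
        rw [ih j hj' (by omega)]
      rw [h4] at h3
      have h5 := add_left_cancel h3
      have h6 : (((k - r).choose (r - r) : ℕ) : ℝ) * (((n - r - r).choose (k - r) : ℕ) : ℝ) ≠ 0 := by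
        have h7 : 0 < (n - r - r).choose (k - r) := Nat.choose_pos (by omega)
        rw [Nat.sub_self, Nat.choose_zero_right, Nat.cast_one, one_mul, Nat.cast_ne_zero]
        exact h7.ne'
      exact mul_left_cancel₀ h6 h5
  have hsum : ∑ j ∈ range (k + 1), x j = ∑ j ∈ range (k + 1), x' j := by
    refine sum_congr rfl fun j hj => ?_
    have hj' := mem_range.1 hj
    by_cases hjt : j ≤ t
    · exact hxx j hjt
    · rw [hx0 j (by omega) (by omega), hy0 j (by omega) (by omega)]
  rw [hx2, hy2] at hsum
  have h1 : ∑ A ∈ slice n k, f A ^ 2 = ∑ A ∈ slice n k, dn t g A ^ 2 + ∑ A ∈ slice n k, h A ^ 2 := by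
    have h2 : ∑ A ∈ slice n k, f A ^ 2 = ∑ A ∈ slice n k, (dn t g A ^ 2 + 2 * (dn t g A * h A) + h A ^ 2) := by
      refine sum_congr rfl fun A hA => ?_
      rw [hf A hA]
      ring
    rw [h2, sum_add_distrib, sum_add_distrib, ← mul_sum, hh g, mul_zero, add_zero]
  have h2 : ∑ A ∈ slice n k, h A ^ 2 = 0 := by linarith
  have h3 := (sum_eq_zero_iff_of_nonneg fun A _ => sq_nonneg (h A)).1 h2
  refine ⟨g, fun A hA => ?_⟩
  rw [hf A hA, pow_eq_zero_iff two_ne_zero |>.1 (h3 A hA), add_zero]

end Pool.Agent.P8H96.TI
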